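import Mathlib
import Pool.Agent.Helper18.NF.Stmts2

set_option autoImplicit false

namespace Pool.Agent.Helper18.NF

open Pool.Agent.Helper14.BSC Polynomial

theorem st_ALP : ST_ALP := by
  intro k Ω _ _ _ _ _ _ a b hΔ x y h hx
  have hx1 : x ∈ Acl k Ω := mem_algebraicClosure_iff.2 hx
  have hy2 : y ^ 2 ∈ Acl k Ω := by
    have h0 : y ^ 2 = x ^ 3 + algebraMap k Ω a * x + algebraMap k Ω b := h
    rw [h0]
    exact add_mem (add_mem (pow_mem hx1 3) (mul_mem ((Acl k Ω).algebraMap_mem a) hx1))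
      ((Acl k Ω).algebraMap_mem b)
  have hy1 : y ∈ Acl k Ω := by
    rw [mem_algebraicClosure_iff, isAlgebraic_iff_isIntegral] at hy2 ⊢
    exact IsIntegral.of_pow (by norm_num) hy2
  have h6 : Eq3 a b (⟨x, hx1⟩ : Acl k Ω) (⟨y, hy1⟩ : Acl k Ω) := by
    have h7 := h
    unfold Eq3 at h7 ⊢
    apply Subtype.ext
    exact h7
  refine ⟨EP.pt hΔ ⟨x, hx1⟩ ⟨y, hy1⟩ h6, ?_⟩
  rw [EP.map_pt]
  exact EP.pt_congr hΔ rfl rfl

end Pool.Agent.Helper18.NF
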