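import Mathlib
import Pool.Agent.Helper18.NF.Stmts2

set_option autoImplicit false

namespace Pool.Agent.Helper18.NF

open Pool.Agent.Helper14.BSC Polynomial

/-- the action of the section on algebraic points -/
theorem kcc_act {k Ω : Type} [Field k] [Field Ω] [Algebra k Ω] (D : Sec k Ω) (a b : k)
    (g : GG k Ω) (t : EP a b (Acl k Ω)) :
    EP.map (D.s g : Ω →ₐ[k] Ω) (EP.map (Acl k Ω).val t) =
      EP.map (Acl k Ω).val (EP.map (g : Acl k Ω →ₐ[k] Acl k Ω) t) := by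
  rw [EP.map_map, EP.map_map]
  have h : ((D.s g : Ω →ₐ[k] Ω)).comp (Acl k Ω).val =
      ((Acl k Ω).val).comp (g : Acl k Ω →ₐ[k] Acl k Ω) := by
    apply AlgHom.ext
    intro c
    exact D.ext g c
  rw [h]

/-- the section is multiplicative on points -/
theorem kcc_mul {k Ω : Type} [Field k] [Field Ω] [Algebra k Ω] (D : Sec k Ω) (a b : k)
    (g g' : GG k Ω) (Q : EP a b Ω) :
    EP.map (D.s (g * g') : Ω →ₐ[k] Ω) Q =
      EP.map (D.s g : Ω →ₐ[k] Ω) (EP.map (D.s g' : Ω →ₐ[k] Ω) Q) := by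
  rw [EP.map_map]
  have h : (D.s (g * g') : Ω →ₐ[k] Ω) = ((D.s g : Ω →ₐ[k] Ω)).comp (D.s g' : Ω →ₐ[k] Ω) := by
    rw [map_mul]
    rfl
  rw [h]

theorem st_KCC (h1 : ST_DVP) (h2 : ST_TRN) (h3 : ST_ALP) : ST_KCC := by
  intro k Ω _ _ _ _ _ _ D a b hΔ x y h hx hxL hyL m hm
  classical
  haveI : CharZero (Acl k Ω) :=
    charZero_of_injective_algebraMap (algebraMap k (Acl k Ω)).injective
  obtain ⟨x', y', h', hQ⟩ := h1 k Ω a b hΔ m hm x y h hx
  have key : ∀ g : GG k Ω, ∃ t : EP a b (Acl k Ω),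
      EP.map (D.s g : Ω →ₐ[k] Ω) (EP.pt hΔ x' y' h') =
        EP.pt hΔ x' y' h' + EP.map (Acl k Ω).val t := by
    intro g
    have hg : g ∈ Stab (∅ : Set (Acl k Ω)) := fun a ha => absurd ha (Set.notMem_empty a)
    have hfix : EP.map (D.s g : Ω →ₐ[k] Ω) (EP.pt hΔ x y h) = EP.pt hΔ x y h := by
      rw [EP.map_pt]
      exact EP.pt_congr hΔ (hxL g hg) (hyL g hg)
    have hT : m • (EP.map (D.s g : Ω →ₐ[k] Ω) (EP.pt hΔ x' y' h') - EP.pt hΔ x' y' h') = 0 := by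
      rw [smul_sub, ← map_nsmul, hQ, hfix, sub_self]
    rcases EP.cases hΔ (EP.map (D.s g : Ω →ₐ[k] Ω) (EP.pt hΔ x' y' h') - EP.pt hΔ x' y' h') with
      hT0 | ⟨u, v, huv, hT1⟩
    · exact ⟨0, by rw [map_zero, add_zero]; exact sub_eq_zero.1 hT0⟩
    · by_cases hu : IsAlgebraic k u
      · obtain ⟨P, hP⟩ := h3 k Ω a b hΔ u v huv hu
        exact ⟨P, by rw [hP, ← hT1]; abel⟩
      · exfalso
        obtain ⟨u', v', huv', he, _⟩ := h2 k Ω a b hΔ m hm u v huv hu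
        rw [hT1, he] at hT
        exact EP.pt_ne_zero hΔ huv' hT
  choose ξ hξ using key
  have hξ' : ∀ g, EP.map (Acl k Ω).val (ξ g) =
      EP.map (D.s g : Ω →ₐ[k] Ω) (EP.pt hΔ x' y' h') - EP.pt hΔ x' y' h' := by
    intro g
    rw [hξ g]
    abel
  refine ⟨EP.pt hΔ x' y' h', ξ, hQ, hξ, ?_, ?_, ?_⟩
  · intro g
    have hg : g ∈ Stab (∅ : Set (Acl k Ω)) := fun a ha => absurd ha (Set.notMem_empty a)
    apply EP.map_injective (Acl k Ω).val
    rw [map_nsmul, hξ' g, map_zero, smul_sub, ← map_nsmul, hQ, EP.map_pt, sub_eq_zero]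
    exact EP.pt_congr hΔ (hxL g hg) (hyL g hg)
  · intro g g'
    apply EP.map_injective (Acl k Ω).val
    rw [map_add, ← kcc_act, hξ' (g * g'), kcc_mul, hξ g', map_add, hξ g]
    abel
  · obtain ⟨E1, hE1⟩ := D.fin x'
    obtain ⟨E2, hE2⟩ := D.fin y'
    refine ⟨E1 ∪ E2, fun g hg => ?_⟩
    have e1 : D.s g x' = x' := hE1 g fun c hc => hg c (Finset.mem_union_left _ hc)
    have e2 : D.s g y' = y' := hE2 g fun c hc => hg c (Finset.mem_union_right _ hc)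
    apply EP.map_injective (Acl k Ω).val
    rw [hξ' g, map_zero, EP.map_pt, sub_eq_zero]
    exact EP.pt_congr hΔ e1 e2

end Pool.Agent.Helper18.NF
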