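import Mathlib
import Pool.Agent.Helper50.NF.KCC

set_option autoImplicit false

namespace Pool.Agent.Helper18.NF

open Pool.Agent.Helper14.BSC Polynomial

theorem dvb_tr (h3 : ST_DLB) {k Ω : Type} [Field k] [Field Ω] [Algebra k Ω] [CharZero k]
    [IsAlgClosed Ω] (D : Sec k Ω) (x : LL D) (hx : NC D x) : Transcendental k (x : Ω) := by
  rintro ⟨G, hG, h0⟩
  apply (h3 k Ω D).1 x hx G hG
  have h1 : ((aeval x G : LL D) : Ω) = aeval (x : Ω) G :=
    (Polynomial.aeval_algHom_apply (LL D).val x G).symm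
  rw [h0] at h1
  exact Subtype.ext h1

theorem st_DVB (h1 : ST_KCC) (h2 : ST_LCT) (h3 : ST_DLB) : ST_DVB := by
  intro k Ω _ _ _ _ _ _ D _ a b hΔ p hp hB x y h hx
  classical
  obtain ⟨e, he, hS⟩ := hB
  refine ⟨e, he, fun N => ?_⟩
  have hxt : Transcendental k (x : Ω) := dvb_tr h3 D x hx
  have hxy : Eq3 a b (x : Ω) (y : Ω) := h.map (LL D).val
  obtain ⟨Q, ξ, hQ, hξ, htors, hcoc, hcont⟩ :=
    h1 k Ω D a b hΔ (x : Ω) (y : Ω) hxy hxt x.2 y.2 (p ^ N) (Nat.one_le_pow _ _ hp)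
  have hsel : IsSelmer a b (p ^ N) ξ :=
    ⟨htors, hcoc, hcont, fun l _ _ ι => h2 k Ω D a b hΔ Q ξ hξ l ι⟩
  obtain ⟨t, ht0, ht⟩ := hS N ξ hsel
  have hfix : ∀ g : GG k Ω, EP.map (D.s g : Ω →ₐ[k] Ω) (e • Q - EP.map (Acl k Ω).val t) =
      e • Q - EP.map (Acl k Ω).val t := by
    intro g
    have h4 : EP.map (Acl k Ω).val (e • ξ g) = EP.map (Acl k Ω).val
        (EP.map (g : Acl k Ω →ₐ[k] Acl k Ω) t - t) := by
      rw [ht g]
    rw [map_nsmul, map_sub] at h4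
    rw [map_sub, map_nsmul, hξ g, kcc_act, smul_add, h4]
    abel
  have hP : ∃ P : EP a b (LL D), EP.map (LL D).val P = e • Q - EP.map (Acl k Ω).val t := by
    rcases EP.cases hΔ (e • Q - EP.map (Acl k Ω).val t) with h0 | ⟨x1, y1, h11, h0⟩
    · exact ⟨0, by rw [h0, map_zero]⟩
    · have hmem : ∀ g : GG k Ω, D.s g x1 = x1 ∧ D.s g y1 = y1 := by
        intro g
        have h5 := hfix g
        rw [h0, EP.map_pt] at h5
        exact EP.pt_inj hΔ h5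
      have hx1 : x1 ∈ LL D := fun g _ => (hmem g).1
      have hy1 : y1 ∈ LL D := fun g _ => (hmem g).2
      have h6 : Eq3 a b (⟨x1, hx1⟩ : LL D) (⟨y1, hy1⟩ : LL D) := by
        have h7 := h11
        unfold Eq3 at h7 ⊢
        apply Subtype.ext
        exact h7
      refine ⟨EP.pt hΔ ⟨x1, hx1⟩ ⟨y1, hy1⟩ h6, ?_⟩
      rw [h0, EP.map_pt]
      exact EP.pt_congr hΔ rfl rfl
  obtain ⟨P, hP⟩ := hP
  refine ⟨P, ?_⟩
  apply EP.map_injective (LL D).val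
  rw [map_nsmul, hP, map_nsmul, EP.map_pt, smul_sub, ← map_nsmul, ht0, map_zero, sub_zero,
    smul_comm, hQ]
  rfl

end Pool.Agent.Helper18.NF
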