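import Mathlib
import Pool.Agent.Helper18.NF.Stmts2

set_option autoImplicit false

namespace Pool.Agent.Helper18.NF

open Pool.Agent.Helper14.BSC Polynomial

theorem st_GST : ST_GST := by
  intro k Ω _ _ _ S₀
  classical
  refine ⟨S₀.biUnion fun a => ((minpoly k a).aroots (Acl k Ω)).toFinset, ?_, ?_⟩
  · intro a ha
    rw [Finset.mem_biUnion]
    refine ⟨a, ha, ?_⟩
    rw [Multiset.mem_toFinset, Polynomial.mem_aroots]
    exact ⟨minpoly.ne_zero (Algebra.IsIntegral.isIntegral a), minpoly.aeval k a⟩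
  · intro g r hr
    rw [Finset.mem_biUnion] at hr ⊢
    obtain ⟨a, ha, hr⟩ := hr
    refine ⟨a, ha, ?_⟩
    rw [Multiset.mem_toFinset, Polynomial.mem_aroots] at hr ⊢
    refine ⟨hr.1, ?_⟩
    have h1 : aeval ((g : Acl k Ω →ₐ[k] Acl k Ω) r) (minpoly k a) =
        (g : Acl k Ω →ₐ[k] Acl k Ω) (aeval r (minpoly k a)) :=
      Polynomial.aeval_algHom_apply _ r _
    rw [hr.2, map_zero] at h1
    exact h1

end Pool.Agent.Helper18.NF
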