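import Mathlib
import Pool.Agent.Helper18.NF.Stmts2

set_option autoImplicit false

namespace Pool.Agent.Helper18.NF

open Pool.Agent.Helper14.BSC Polynomial

/-- the image of a number field in `ℂ_ℓ` -/
theorem nfi_aux (F : Type) [Field F] [Algebra ℚ F] [FiniteDimensional ℚ F] (l : ℕ) [Fact l.Prime]
    (ψ : F →+* ℂ_[l]) : ∃ E : IntermediateField ℚ_[l] ℂ_[l], FiniteDimensional ℚ_[l] E ∧
      ∀ x, ψ x ∈ E := by
  classical
  obtain ⟨t, ht⟩ := (Module.Finite.fg_top : (⊤ : Submodule ℚ F).FG)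
  have hint : ∀ z ∈ ψ '' (t : Set F), IsIntegral ℚ_[l] z := by
    rintro z ⟨x, _, rfl⟩
    have h1 : IsIntegral ℚ x := Algebra.IsIntegral.isIntegral x
    have h2 : IsIntegral ℚ (ψ x) := h1.map ψ.toRatAlgHom
    exact h2.tower_top
  haveI : Finite (ψ '' (t : Set F)) := (t.finite_toSet.image ψ).to_subtype
  refine ⟨IntermediateField.adjoin ℚ_[l] (ψ '' (t : Set F)),
    IntermediateField.finiteDimensional_adjoin hint, ?_⟩
  intro x
  have hx : x ∈ Submodule.span ℚ (t : Set F) := by
    rw [ht]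
    exact Submodule.mem_top
  induction hx using Submodule.span_induction with
  | mem y hy => exact IntermediateField.subset_adjoin _ _ ⟨y, hy, rfl⟩
  | zero => rw [map_zero]; exact zero_mem _
  | add y z _ _ hy hz => rw [map_add]; exact add_mem hy hz
  | smul q y _ hy =>
    rw [Algebra.smul_def, map_mul]
    apply mul_mem _ hy
    rw [eq_ratCast (algebraMap ℚ F) q, map_ratCast]
    exact SubfieldClass.ratCast_mem _ q

theorem st_NFI (h1 : Pool.Agent.Helper22.FF.ST_FFS) : ST_NFI := by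
  intro k Ω _ _ _ _ _ S l _ ι
  classical
  have hint : ∀ z ∈ (fun a : Acl k Ω => (a : Ω)) '' (S : Set (Acl k Ω)), IsIntegral k z := by
    rintro z ⟨a, _, rfl⟩
    have h2 : IsAlgebraic k (a : Ω) := mem_algebraicClosure_iff.1 a.2
    exact isAlgebraic_iff_isIntegral.1 h2
  haveI : Finite ((fun a : Acl k Ω => (a : Ω)) '' (S : Set (Acl k Ω))) :=
    (S.finite_toSet.image _).to_subtype
  haveI hfin : FiniteDimensional k (IntermediateField.adjoin k
      ((fun a : Acl k Ω => (a : Ω)) '' (S : Set (Acl k Ω)))) :=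
    IntermediateField.finiteDimensional_adjoin hint
  let φ : FF (S : Set (Acl k Ω)) →ₗ[k] (IntermediateField.adjoin k
      ((fun a : Acl k Ω => (a : Ω)) '' (S : Set (Acl k Ω)))) :=
    { toFun := fun x => ⟨((x : Acl k Ω) : Ω), (h1 k Ω (S : Set (Acl k Ω)) (x : Acl k Ω)).1 x.2⟩
      map_add' := fun _ _ => rfl
      map_smul' := fun _ _ => rfl }
  have hφ : Function.Injective φ := by
    intro x y hxy
    apply Subtype.ext
    apply Subtype.ext
    exact congrArg (fun z => ((z : IntermediateField.adjoin k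
      ((fun a : Acl k Ω => (a : Ω)) '' (S : Set (Acl k Ω)))) : Ω)) hxy
  haveI : FiniteDimensional k (FF (S : Set (Acl k Ω))) := FiniteDimensional.of_injective φ hφ
  haveI : FiniteDimensional ℚ (FF (S : Set (Acl k Ω))) := Module.Finite.trans k _
  obtain ⟨E, hE, hx⟩ := nfi_aux (FF (S : Set (Acl k Ω))) l
    (ι.comp (algebraMap (FF (S : Set (Acl k Ω))) (Acl k Ω)))
  exact ⟨E, hE, fun x hxS => hx ⟨x, hxS⟩⟩

end Pool.Agent.Helper18.NF
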